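import Pool.Agent.H53.GX.Targets

/-!
# The free amalgam of two structures along a tuple, from `T_AMG`
-/

set_option autoImplicit false
set_option linter.unusedVariables false

namespace Pool.Agent.H44.GX

open Pool.Agent.H68.BP Pool.Agent.H58.SF Pool.Agent.H53.GM Pool.Agent.H53.GX
open Classical

noncomputable section

variable {τ : Sig} {N : ℕ} {W₁ W₂ J V X : Type}

/-- the left embedding -/
def lft (a : J → W₁) (b : J → W₂) (x : W₁) : W₁ ⊕ W₂ :=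
  if h : ∃ j, a j = x then Sum.inr (b h.choose) else Sum.inl x

/-- the free amalgam -/
def amg (a : J → W₁) (b : J → W₂) (M₁ : Str τ W₁) (M₂ : Str τ W₂) : Str τ (W₁ ⊕ W₂) :=
  fun l z => (∃ z₁, M₁ l z₁ ∧ z = fun i => lft a b (z₁ i)) ∨ ∃ z₂, M₂ l z₂ ∧ z = fun i => Sum.inr (z₂ i)

theorem lft_eq {a : J → W₁} {b : J → W₂} (ha : Function.Injective a) (j : J) :
    lft a b (a j) = Sum.inr (b j) := by
  have h : ∃ j', a j' = a j := ⟨j, rfl⟩
  unfold lft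
  rw [dif_pos h, ha h.choose_spec]

theorem lft_inl {a : J → W₁} {b : J → W₂} {x : W₁} (h : ¬ ∃ j, a j = x) :
    lft a b x = Sum.inl x := dif_neg h

theorem lft_inj {a : J → W₁} {b : J → W₂} (ha : Function.Injective a)
    (hb : Function.Injective b) : Function.Injective (lft a b) := by
  intro x y hxy
  by_cases hx : ∃ j, a j = x
  · obtain ⟨j, rfl⟩ := hx
    by_cases hy : ∃ j, a j = y
    · obtain ⟨j', rfl⟩ := hy
      rw [lft_eq ha, lft_eq ha] at hxy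
      rw [hb (Sum.inr.inj hxy)]
    · rw [lft_eq ha, lft_inl hy] at hxy
      cases hxy
  · by_cases hy : ∃ j, a j = y
    · obtain ⟨j', rfl⟩ := hy
      rw [lft_eq ha, lft_inl hx] at hxy
      cases hxy
    · rw [lft_inl hx, lft_inl hy] at hxy
      exact Sum.inl.inj hxy

theorem lft_inr {a : J → W₁} {b : J → W₂} (ha : Function.Injective a) {x : W₁} {y : W₂}
    (h : lft a b x = Sum.inr y) : ∃ j, x = a j ∧ y = b j := by
  by_cases hx : ∃ j, a j = x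
  · obtain ⟨j, rfl⟩ := hx
    rw [lft_eq ha] at h
    exact ⟨j, rfl, (Sum.inr.inj h).symm⟩
  · rw [lft_inl hx] at h
    cases h

theorem hom_lft (a : J → W₁) (b : J → W₂) (M₁ : Str τ W₁) (M₂ : Str τ W₂) :
    IsHom M₁ (amg a b M₁ M₂) (lft a b) := fun l z hz => Or.inl ⟨z, hz, rfl⟩

theorem hom_inr (a : J → W₁) (b : J → W₂) (M₁ : Str τ W₁) (M₂ : Str τ W₂) :
    IsHom M₂ (amg a b M₁ M₂) Sum.inr := fun l z hz => Or.inr ⟨z, hz, rfl⟩

/-- the free amalgam is valid and keeps all types -/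
theorem amg_ok (hAMG : Pool.Agent.H53.GM.T_AMG) (hTPB : Pool.Agent.H53.GM.T_TPB)
    {F : Set (Str τ (Fin N))} (hF : Hyp τ N F) {a : J → W₁} {b : J → W₂}
    (M₁ : Str τ W₁) (M₂ : Str τ W₂) (ha : Function.Injective a) (hb : Function.Injective b)
    (h₁ : Val F M₁) (h₂ : Val F M₂) (h : tp N M₁ a ⊆ tp N M₂ b) :
    Val F (amg a b M₁ M₂) ∧
      (∀ (J' : Type) (c : J' → W₂),
        tp N (amg a b M₁ M₂) (fun j => Sum.inr (c j)) = tp N M₂ c) ∧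
      (tp N M₁ a = tp N M₂ b → ∀ (J' : Type) (c : J' → W₁),
        tp N (amg a b M₁ M₂) (fun j => lft a b (c j)) = tp N M₁ c) := by
  obtain ⟨P, e, he, h3, h4, h5, h6, h7, h8⟩ :=
    hAMG τ N F W₁ W₂ J M₁ M₂ a b hF ha hb h₁ h₂ h
  let Φ : W₁ ⊕ W₂ → W₁ ⊕ W₂ := Sum.elim e Sum.inr
  have hΦ : ∀ x, Φ (lft a b x) = e x := by
    intro x
    by_cases hx : ∃ j, a j = x
    · obtain ⟨j, rfl⟩ := hx
      rw [lft_eq ha, h5]
      rfl
    · rw [lft_inl hx]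
      rfl
  have hP : IsHom (amg a b M₁ M₂) P Φ := by
    rintro l z (⟨z₁, hz, rfl⟩ | ⟨z₂, hz, rfl⟩)
    · have := h3 l z₁ hz
      simp only [hΦ]
      exact this
    · exact h4 l z₂ hz
  refine ⟨Val.of_hom h6 hP, fun J' c => ?_, fun heq J' c => ?_⟩
  · apply Set.Subset.antisymm
    · have h9 := (hTPB τ N _ _ J' J' (amg a b M₁ M₂) P (fun j => Sum.inr (c j))).1 Φ hP
      refine h9.trans ?_
      have : (fun j => Φ (Sum.inr (c j))) = fun j => (Sum.inr (c j) : W₁ ⊕ W₂) := rfl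
      rw [this, h7 J' c]
    · exact (hTPB τ N _ _ J' J' M₂ (amg a b M₁ M₂) c).1 Sum.inr (hom_inr a b M₁ M₂)
  · apply Set.Subset.antisymm
    · have h9 := (hTPB τ N _ _ J' J' (amg a b M₁ M₂) P (fun j => lft a b (c j))).1 Φ hP
      refine h9.trans ?_
      simp only [hΦ]
      rw [h8 heq J' c]
    · exact (hTPB τ N _ _ J' J' M₁ (amg a b M₁ M₂) c).1 (lft a b) (hom_lft a b M₁ M₂)

/-- the two blobs -/
def blb (a : J → W₁) (b : J → W₂) (M₁ : Str τ W₁) (M₂ : Str τ W₂) : Fin 2 → Str τ (W₁ ⊕ W₂)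
  | 0 => fun l z => ∃ z₁, M₁ l z₁ ∧ z = fun i => lft a b (z₁ i)
  | 1 => fun l z => ∃ z₂, M₂ l z₂ ∧ z = fun i => Sum.inr (z₂ i)

/-- the sets of the two blobs -/
def bls (a : J → W₁) (b : J → W₂) : Fin 2 → Set (W₁ ⊕ W₂)
  | 0 => Set.range (lft a b)
  | 1 => Set.range Sum.inr

theorem blb_cov (a : J → W₁) (b : J → W₂) (M₁ : Str τ W₁) (M₂ : Str τ W₂) (l : Fin τ.m)
    (z : Fin (τ.ar l) → W₁ ⊕ W₂) (h : amg a b M₁ M₂ l z) : ∃ i, blb a b M₁ M₂ i l z := by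
  rcases h with h | h
  · exact ⟨0, h⟩
  · exact ⟨1, h⟩

theorem blb_in (a : J → W₁) (b : J → W₂) (M₁ : Str τ W₁) (M₂ : Str τ W₂) (i : Fin 2)
    (l : Fin τ.m) (z : Fin (τ.ar l) → W₁ ⊕ W₂) (h : blb a b M₁ M₂ i l z) (j : Fin (τ.ar l)) :
    z j ∈ bls a b i := by
  fin_cases i
  · obtain ⟨z₁, -, rfl⟩ := h
    exact ⟨z₁ j, rfl⟩
  · obtain ⟨z₂, -, rfl⟩ := h
    exact ⟨z₂ j, rfl⟩

theorem bls_int {a : J → W₁} {b : J → W₂} (ha : Function.Injective a) (i j : Fin 2)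
    (x : W₁ ⊕ W₂) (hi : x ∈ bls a b i) (hj : x ∈ bls a b j) (hij : i ≠ j) :
    ∃ m : J, x = Sum.inr (b m) := by
  have key : ∀ x : W₁ ⊕ W₂, x ∈ bls a b 0 → x ∈ bls a b 1 → ∃ m : J, x = Sum.inr (b m) := by
    rintro x ⟨w, rfl⟩ ⟨y, hy⟩
    obtain ⟨m, -, rfl⟩ := lft_inr ha hy.symm
    exact ⟨m, hy.symm⟩
  fin_cases i <;> fin_cases j
  · exact absurd rfl hij
  · exact key x hi hj
  · exact key x hj hi
  · exact absurd rfl hij

end

end Pool.Agent.H44.GX
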