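import Pool.Agent.H76.GX.Targets
import Pool.Agent.H44.GX.Glue

/-!
# Free amalgams exist (row FRA)
-/

set_option autoImplicit false
set_option linter.unusedVariables false

namespace Pool.Agent.H44.GX

open Pool.Agent.H68.BP Pool.Agent.H58.SF Pool.Agent.H53.GM Pool.Agent.H53.GX Pool.Agent.H76.GX
open Classical

noncomputable section

variable {τ : Sig} {N k : ℕ} {W W₁ W₂ : Type}

theorem rdp_pos {S : Finset (Fin k)} {v : Fin k} (h : v ∉ S) : rdp S v = Fin.castAdd k v :=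
  if_neg h

theorem rdp_cst {S : Finset (Fin k)} {v : Fin k} (h : v ∈ S) : rdp S v = Fin.natAdd k v :=
  if_pos h

theorem cast_ne_nat (v i : Fin k) : Fin.castAdd k v ≠ Fin.natAdd k i := by
  intro h
  have h1 := congrArg Fin.val h
  simp only [Fin.val_castAdd, Fin.val_natAdd] at h1
  have := v.2
  omega

theorem cast_inj {v v' : Fin k} (h : Fin.castAdd k v = Fin.castAdd k v') : v = v' := by
  have h1 := congrArg Fin.val h
  simp only [Fin.val_castAdd] at h1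
  exact Fin.ext h1

theorem nat_inj {v v' : Fin k} (h : Fin.natAdd k v = Fin.natAdd k v') : v = v' := by
  have h1 := congrArg Fin.val h
  simp only [Fin.val_natAdd] at h1
  exact Fin.ext (by omega)

theorem rdp_inj (S : Finset (Fin k)) : Function.Injective (rdp S) := by
  intro v v' h
  by_cases h1 : v ∈ S
  · by_cases h2 : v' ∈ S
    · rw [rdp_cst h1, rdp_cst h2] at h
      exact nat_inj h
    · rw [rdp_cst h1, rdp_pos h2] at h
      exact absurd h.symm (cast_ne_nat _ _)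
  · by_cases h2 : v' ∈ S
    · rw [rdp_pos h1, rdp_cst h2] at h
      exact absurd h (cast_ne_nat _ _)
    · rw [rdp_pos h1, rdp_pos h2] at h
      exact cast_inj h

theorem cast_mem_gs {I S e : Finset (Fin k)} {v : Fin k} :
    Fin.castAdd k v ∈ gs I S e ↔ v ∈ e ∧ v ∉ S := by
  unfold gs ps cst
  rw [Finset.mem_union, Finset.mem_image, Finset.mem_image]
  constructor
  · rintro (⟨u, hu, h⟩ | ⟨u, hu, h⟩)
    · rw [cast_inj h, Finset.mem_sdiff] at hu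
      exact hu
    · exact absurd h.symm (cast_ne_nat _ _)
  · intro h
    exact Or.inl ⟨v, Finset.mem_sdiff.2 h, rfl⟩

theorem nat_mem_gs {I S e : Finset (Fin k)} {v : Fin k} :
    Fin.natAdd k v ∈ gs I S e ↔ v ∈ I := by
  unfold gs ps cst
  rw [Finset.mem_union, Finset.mem_image, Finset.mem_image]
  constructor
  · rintro (⟨u, hu, h⟩ | ⟨u, hu, h⟩)
    · exact absurd h (cast_ne_nat _ _)
    · rw [← nat_inj h]
      exact hu
  · intro h
    exact Or.inr ⟨v, h, rfl⟩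

/-- Types do not see isolated elements. -/
theorem tp_img (hTPB : Pool.Agent.H53.GM.T_TPB) {J : Type} (M : Str τ W₁) (j : W₁ → W)
    (hj : Function.Injective j) (hW : Nonempty W₁) (c : J → W₁) :
    tp N (fun l z => ∃ z₁, M l z₁ ∧ z = fun i => j (z₁ i)) (fun x => j (c x)) = tp N M c := by
  apply Set.Subset.antisymm
  · let g : W → W₁ := fun w => if h : ∃ x, j x = w then h.choose else hW.some
    have hg : ∀ x, g (j x) = x := by
      intro x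
      have h : ∃ y, j y = j x := ⟨x, rfl⟩
      change (if h : ∃ y, j y = j x then h.choose else hW.some) = x
      rw [dif_pos h]
      exact hj h.choose_spec
    have h1 : IsHom (fun l z => ∃ z₁, M l z₁ ∧ z = fun i => j (z₁ i) : Str τ W) M g := by
      rintro l z ⟨z₁, hz, rfl⟩
      simp only [hg]
      exact hz
    have h2 := (hTPB τ N _ _ J J _ M (fun x => j (c x))).1 g h1
    simp only [hg] at h2
    exact h2
  · exact (hTPB τ N _ _ J J M (fun l z => ∃ z₁, M l z₁ ∧ z = fun i => j (z₁ i)) c).1 j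
      (fun l z hz => ⟨z, hz, rfl⟩)

theorem pf_FRA (hTPB : Pool.Agent.H53.GM.T_TPB) (hRLI : Pool.Agent.H53.GM.T_RLI)
    (hAMG : Pool.Agent.H53.GM.T_AMG) : Pool.Agent.H76.GX.T_FRA := by
  intro τ N k F I S J p t hF hk hSI hp ht hpt
  obtain ⟨W₁, hW₁, M₁, c₁, hc₁, hv₁, rfl⟩ := hRLI τ N F (Fin k) p hp
  obtain ⟨W₂, hW₂, M₂, c₂, hc₂, hv₂, rfl⟩ := hRLI τ N F (Fin (k + k)) t ht
  have hn₁ : Nonempty W₁ := ⟨c₁ ⟨0, hk⟩⟩
  have hn₂ : Nonempty W₂ := ⟨c₂ ⟨0, by omega⟩⟩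
  -- the tuples over `J`
  set a : {v // v ∈ J} → W₁ := fun j => c₁ j.1 with ha
  set b₀ : {v // v ∈ J} → W₂ := fun j => c₂ (rdp S j.1) with hb₀
  have hai : Function.Injective a := fun x y h => Subtype.ext (hc₁ h)
  have hbi : Function.Injective b₀ := fun x y h => Subtype.ext (rdp_inj S (hc₂ h))
  have hsub : tp N M₁ a ⊆ tp N M₂ b₀ := by
    have h1 := (hTPB τ N _ _ (Fin k) (Fin k) M₁ M₂ c₁).2.2.2 (fun v => c₂ (rdp S v)) J
    refine h1.1 ?_
    rw [hpt, (hTPB τ N _ _ (Fin (k + k)) (Fin k) M₂ M₂ c₂).2.1 (rdp S)]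
  obtain ⟨hval, -, -⟩ := amg_ok hAMG hTPB hF M₁ M₂ hai hbi hv₁ hv₂ hsub
  -- the elements
  let jj : W₁ ⊕ W₂ → (W₁ ⊕ W₂) ⊕ Fin (k + k) := Sum.inl
  let j₁ : W₁ → (W₁ ⊕ W₂) ⊕ Fin (k + k) := fun x => Sum.inl (lft a b₀ x)
  let j₂ : W₂ → (W₁ ⊕ W₂) ⊕ Fin (k + k) := fun x => Sum.inl (Sum.inr x)
  have hj₁ : Function.Injective j₁ := fun x y h => lft_inj hai hbi (Sum.inl.inj h)
  have hj₂ : Function.Injective j₂ := fun x y h => Sum.inr.inj (Sum.inl.inj h)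
  have hjJ : ∀ v ∈ J, j₁ (c₁ v) = j₂ (c₂ (rdp S v)) := by
    intro v hv
    change Sum.inl (lft a b₀ (a ⟨v, hv⟩)) = _
    rw [lft_eq hai]
  have hjj : ∀ x y, j₁ x = j₂ y → ∃ v ∈ J, x = c₁ v ∧ y = c₂ (rdp S v) := by
    intro x y h
    obtain ⟨m, h1, h2⟩ := lft_inr hai (Sum.inl.inj h)
    exact ⟨m.1, m.2, h1, h2⟩
  let b : Fin (k + k) → (W₁ ⊕ W₂) ⊕ Fin (k + k) := fun w =>
    if h : ∃ v, v ∉ S ∩ J ∧ w = Fin.castAdd k v then j₁ (c₁ h.choose) else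
      if w ∈ cst I then j₂ (c₂ w) else Sum.inr w
  have hbp : ∀ v, v ∉ S ∩ J → b (Fin.castAdd k v) = j₁ (c₁ v) := by
    intro v hv
    have h : ∃ u, u ∉ S ∩ J ∧ Fin.castAdd k v = Fin.castAdd k u := ⟨v, hv, rfl⟩
    change (if h : ∃ u, u ∉ S ∩ J ∧ Fin.castAdd k v = Fin.castAdd k u then j₁ (c₁ h.choose)
      else _) = _
    rw [dif_pos h, ← cast_inj h.choose_spec.2]
  have hcst : ∀ i, Fin.natAdd k i ∈ cst I ↔ i ∈ I := by
    intro i
    unfold cst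
    rw [Finset.mem_image]
    constructor
    · rintro ⟨u, hu, h⟩
      rw [← nat_inj h]
      exact hu
    · intro h
      exact ⟨i, h, rfl⟩
  have hcst' : ∀ v, Fin.castAdd k v ∉ cst I := by
    intro v h
    unfold cst at h
    obtain ⟨u, hu, h⟩ := Finset.mem_image.1 h
    exact cast_ne_nat _ _ h.symm
  have hbc : ∀ i ∈ I, b (Fin.natAdd k i) = j₂ (c₂ (Fin.natAdd k i)) := by
    intro i hi
    have h : ¬ ∃ u, u ∉ S ∩ J ∧ Fin.natAdd k i = Fin.castAdd k u := by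
      rintro ⟨u, -, h⟩
      exact cast_ne_nat _ _ h.symm
    change (if h : ∃ u, u ∉ S ∩ J ∧ Fin.natAdd k i = Fin.castAdd k u then j₁ (c₁ h.choose)
      else if Fin.natAdd k i ∈ cst I then _ else _) = _
    rw [dif_neg h, if_pos ((hcst i).2 hi)]
  have hbj₁ : ∀ v ∈ S ∩ J, b (Fin.castAdd k v) = Sum.inr (Fin.castAdd k v) := by
    intro v hv
    have h : ¬ ∃ u, u ∉ S ∩ J ∧ Fin.castAdd k v = Fin.castAdd k u := by
      rintro ⟨u, h1, h⟩
      rw [← cast_inj h] at h1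
      exact h1 hv
    change (if h : ∃ u, u ∉ S ∩ J ∧ Fin.castAdd k v = Fin.castAdd k u then j₁ (c₁ h.choose)
      else if Fin.castAdd k v ∈ cst I then _ else _) = _
    rw [dif_neg h, if_neg (hcst' v)]
  have hbj₂ : ∀ i, i ∉ I → b (Fin.natAdd k i) = Sum.inr (Fin.natAdd k i) := by
    intro i hi
    have h : ¬ ∃ u, u ∉ S ∩ J ∧ Fin.natAdd k i = Fin.castAdd k u := by
      rintro ⟨u, -, h⟩
      exact cast_ne_nat _ _ h.symm
    change (if h : ∃ u, u ∉ S ∩ J ∧ Fin.natAdd k i = Fin.castAdd k u then j₁ (c₁ h.choose)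
      else if Fin.natAdd k i ∈ cst I then _ else _) = _
    rw [dif_neg h, if_neg (fun h => hi ((hcst i).1 h))]
  -- names
  have hcas : ∀ w : Fin (k + k), (∃ v, w = Fin.castAdd k v) ∨ ∃ i, w = Fin.natAdd k i := by
    intro w
    refine Fin.addCases (fun v => Or.inl ⟨v, rfl⟩) (fun i => Or.inr ⟨i, rfl⟩) w
  -- the four kinds of names
  have hkind : ∀ w, (∃ v, v ∉ S ∩ J ∧ w = Fin.castAdd k v ∧ b w = j₁ (c₁ v)) ∨
      (∃ i ∈ I, w = Fin.natAdd k i ∧ b w = j₂ (c₂ w)) ∨ b w = Sum.inr w := by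
    intro w
    rcases hcas w with ⟨v, rfl⟩ | ⟨i, rfl⟩
    · by_cases h : v ∈ S ∩ J
      · exact Or.inr (Or.inr (hbj₁ v h))
      · exact Or.inl ⟨v, h, rfl, hbp v h⟩
    · by_cases h : i ∈ I
      · exact Or.inr (Or.inl ⟨i, h, rfl, hbc i h⟩)
      · exact Or.inr (Or.inr (hbj₂ i h))
  have hbinj : Function.Injective b := by
    intro w w' h
    rcases hkind w with ⟨v, h1, h2, h3⟩ | ⟨i, h1, h2, h3⟩ | h3 <;>
      rcases hkind w' with ⟨v', h1', h2', h3'⟩ | ⟨i', h1', h2', h3'⟩ | h3'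
    · rw [h3, h3'] at h
      rw [h2, h2', hc₁ (hj₁ h)]
    · rw [h3, h3'] at h
      obtain ⟨u, hu, e1, e2⟩ := hjj _ _ h
      have e3 := hc₁ e1
      have e4 := hc₂ e2
      rw [h2'] at e4
      exfalso
      by_cases hS : u ∈ S
      · apply h1
        rw [e3]
        exact Finset.mem_inter.2 ⟨hS, hu⟩
      · rw [rdp_pos hS] at e4
        exact cast_ne_nat _ _ e4.symm
    · rw [h3, h3'] at h
      cases h
    · rw [h3, h3'] at h
      obtain ⟨u, hu, e1, e2⟩ := hjj _ _ h.symm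
      have e3 := hc₁ e1
      have e4 := hc₂ e2
      rw [h2] at e4
      exfalso
      by_cases hS : u ∈ S
      · apply h1'
        rw [e3]
        exact Finset.mem_inter.2 ⟨hS, hu⟩
      · rw [rdp_pos hS] at e4
        exact cast_ne_nat _ _ e4.symm
    · rw [h3, h3'] at h
      exact hc₂ (hj₂ h)
    · rw [h3, h3'] at h
      cases h
    · rw [h3, h3'] at h
      cases h
    · rw [h3, h3'] at h
      cases h
    · rw [h3, h3'] at h
      exact Sum.inr.inj h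
  have hbr : ∀ v, b (rdp (S ∩ J) v) = j₁ (c₁ v) := by
    intro v
    by_cases h : v ∈ S ∩ J
    · rw [rdp_cst h]
      have h1 := Finset.mem_inter.1 h
      rw [hbc v (hSI h1.1), hjJ v h1.2, rdp_cst h1.1]
    · rw [rdp_pos h, hbp v h]
  have hbg : ∀ w ∈ gs I S J, b w = j₂ (c₂ w) := by
    intro w hw
    rcases hcas w with ⟨v, rfl⟩ | ⟨i, rfl⟩
    · obtain ⟨h1, h2⟩ := cast_mem_gs.1 hw
      rw [hbp v (fun h => h2 (Finset.mem_inter.1 h).1), hjJ v h1, rdp_pos h2]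
    · exact hbc i (nat_mem_gs.1 hw)
  refine ⟨(W₁ ⊕ W₂) ⊕ Fin (k + k), inferInstance,
    fun l z => (∃ z₁, M₁ l z₁ ∧ z = fun i => j₁ (z₁ i)) ∨ ∃ z₂, M₂ l z₂ ∧ z = fun i => j₂ (z₂ i),
    fun l z => ∃ z₁, M₁ l z₁ ∧ z = fun i => j₁ (z₁ i),
    fun l z => ∃ z₂, M₂ l z₂ ∧ z = fun i => j₂ (z₂ i),
    Set.range j₁, Set.range j₂, b, ?_⟩
  refine ⟨hbinj, ?_, fun l z => Iff.rfl, ?_, ?_, ?_, ?_, ?_, ?_, ?_⟩
  · -- valid
    let g : (W₁ ⊕ W₂) ⊕ Fin (k + k) → W₁ ⊕ W₂ := Sum.elim id (fun _ => Sum.inl hn₁.some)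
    refine Val.of_hom (f := g) hval ?_
    rintro l z (⟨z₁, hz, rfl⟩ | ⟨z₂, hz, rfl⟩)
    · exact Or.inl ⟨z₁, hz, rfl⟩
    · exact Or.inr ⟨z₂, hz, rfl⟩
  · rintro l z ⟨z₁, hz, rfl⟩ i
    exact ⟨z₁ i, rfl⟩
  · rintro l z ⟨z₁, hz, rfl⟩ i
    exact ⟨z₁ i, rfl⟩
  · rintro x ⟨x₁, rfl⟩ ⟨x₂, hx⟩
    obtain ⟨v, hv, h1, h2⟩ := hjj _ _ hx.symm
    refine ⟨v, hv, ?_⟩
    rw [← hx, h2]
    by_cases hS : v ∈ S
    · rw [rdp_cst hS, hbc v (hSI hS)]
    · rw [rdp_pos hS, hbp v (fun h => hS (Finset.mem_inter.1 h).1), hjJ v hv, rdp_pos hS]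
  · rintro w ⟨x, hx⟩
    rcases hkind w with ⟨v, h1, h2, h3⟩ | ⟨i, h1, h2, h3⟩ | h3
    · exact ⟨v, by rw [h2, rdp_pos h1]⟩
    · rw [h3] at hx
      obtain ⟨v, hv, e1, e2⟩ := hjj _ _ hx
      have e3 := hc₂ e2
      rw [h2] at e3
      by_cases hS : v ∈ S
      · refine ⟨v, ?_⟩
        rw [rdp_cst hS] at e3
        rw [h2, e3, rdp_cst (Finset.mem_inter.2 ⟨hS, hv⟩)]
      · rw [rdp_pos hS] at e3
        exact absurd e3.symm (cast_ne_nat _ _)
    · rw [h3] at hx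
      cases hx
  · rintro w ⟨x, hx⟩
    rcases hkind w with ⟨v, h1, h2, h3⟩ | ⟨i, h1, h2, h3⟩ | h3
    · rw [h3] at hx
      obtain ⟨u, hu, e1, e2⟩ := hjj _ _ hx.symm
      have e3 := hc₁ e1
      rw [h2, cast_mem_gs]
      subst e3
      exact ⟨hu, fun h => h1 (Finset.mem_inter.2 ⟨h, hu⟩)⟩
    · rw [h2, nat_mem_gs]
      exact h1
    · rw [h3] at hx
      cases hx
  · simp only [hbr]
    exact tp_img hTPB M₁ j₁ hj₁ hn₁ c₁
  · rw [(hTPB τ N _ _ (Fin (k + k)) (Fin (k + k))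
      (fun l z => ∃ z₂, M₂ l z₂ ∧ z = fun i => j₂ (z₂ i)) M₂ b).2.2.1
      (fun w => j₂ (c₂ w)) (gs I S J) hbg, tp_img hTPB M₂ j₂ hj₂ hn₂ c₂]

end

end Pool.Agent.H44.GX
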