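import Pool.Agent.H44.GX.Glue

/-!
# Pieces of a free amalgam: the two parts
-/

set_option autoImplicit false
set_option linter.unusedVariables false

namespace Pool.Agent.H44.GX

open Pool.Agent.H68.BP Pool.Agent.H58.SF Pool.Agent.H53.GM Pool.Agent.H53.GX
open Classical

noncomputable section

variable {τ : Sig} {N : ℕ} {W₁ W₂ J V X : Type}

/-- the roots of the left part -/
def rt1 (a : J → W₁) (b : J → W₂) (c₁ : V → W₁) (f : Fin N → W₁ ⊕ W₂) (v : Fin N) : Option V :=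
  if h : ∃ x, f v = lft a b (c₁ x) then some h.choose else none

/-- the roots of the right part -/
def rt2 (c₂ : X → W₂) (Y : Set X) (f : Fin N → W₁ ⊕ W₂) (v : Fin N) : Option X :=
  if h : ∃ y, y ∈ Y ∧ f v = Sum.inr (c₂ y) then some h.choose else none

theorem rt1_iff {a : J → W₁} {b : J → W₂} {c₁ : V → W₁} {f : Fin N → W₁ ⊕ W₂}
    (ha : Function.Injective a) (hb : Function.Injective b) (hc : Function.Injective c₁)
    (v : Fin N) (x : V) : rt1 a b c₁ f v = some x ↔ f v = lft a b (c₁ x) := by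
  unfold rt1
  constructor
  · intro h
    split_ifs at h with h1
    rw [← Option.some.inj h]
    exact h1.choose_spec
  · intro h
    have h1 : ∃ x, f v = lft a b (c₁ x) := ⟨x, h⟩
    rw [dif_pos h1]
    have h2 := h.symm.trans h1.choose_spec
    rw [← hc (lft_inj ha hb h2)]

theorem rt2_iff {c₂ : X → W₂} {Y : Set X} {f : Fin N → W₁ ⊕ W₂} (hc : Function.Injective c₂)
    (v : Fin N) (y : X) : rt2 c₂ Y f v = some y ↔ y ∈ Y ∧ f v = Sum.inr (c₂ y) := by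
  unfold rt2
  constructor
  · intro h
    split_ifs at h with h1
    rw [← Option.some.inj h]
    exact h1.choose_spec
  · rintro ⟨hy, h⟩
    have h1 : ∃ y, y ∈ Y ∧ f v = Sum.inr (c₂ y) := ⟨y, hy, h⟩
    rw [dif_pos h1]
    have h2 := h.symm.trans h1.choose_spec.2
    rw [← hc (Sum.inr.inj h2)]

/-- A homomorphism to a free amalgam splits in two pieces. -/
theorem amg_parts (hGLU : Pool.Agent.H53.GM.T_GLU) (hGL2 : Pool.Agent.H53.GM.T_GL2)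
    (har : ∀ l, 1 ≤ τ.ar l) (M₁ : Str τ W₁) (M₂ : Str τ W₂) (hW₁ : Nonempty W₁)
    (hW₂ : Nonempty W₂) (κ₁ : J → V) (κ₂ : J → X) (hκ₁ : Function.Injective κ₁)
    (hκ₂ : Function.Injective κ₂) (c₁ : V → W₁) (c₂ : X → W₂) (hc₁ : Function.Injective c₁)
    (hc₂ : Function.Injective c₂) (Y : Set X) (hY : ∀ j, κ₂ j ∈ Y) {R : Type}
    (D : Str τ (Fin N)) (ρ : Fin N → Option R) (f : Fin N → W₁ ⊕ W₂)
    (hf : IsHom D (amg (fun j => c₁ (κ₁ j)) (fun j => c₂ (κ₂ j)) M₁ M₂) f) (hRC : RC D ρ)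
    (hρ : ∀ v, ρ v ≠ none → (∃ x, f v = lft (fun j => c₁ (κ₁ j)) (fun j => c₂ (κ₂ j)) (c₁ x)) ∨
      ∃ y ∈ Y, f v = Sum.inr (c₂ y)) :
    ((sub D f (blb (fun j => c₁ (κ₁ j)) (fun j => c₂ (κ₂ j)) M₁ M₂ 0),
        rt1 (fun j => c₁ (κ₁ j)) (fun j => c₂ (κ₂ j)) c₁ f) :
        Str τ (Fin N) × (Fin N → Option V)) ∈ tp N M₁ c₁ ∧
      ((sub D f (blb (fun j => c₁ (κ₁ j)) (fun j => c₂ (κ₂ j)) M₁ M₂ 1), rt2 c₂ Y f) :
        Str τ (Fin N) × (Fin N → Option X)) ∈ tp N M₂ c₂ ∧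
      ∀ (W' : Type) (M' : Str τ W') (g₁ : V → W') (g₂ : X → W'),
        (∀ j, g₁ (κ₁ j) = g₂ (κ₂ j)) →
        ((sub D f (blb (fun j => c₁ (κ₁ j)) (fun j => c₂ (κ₂ j)) M₁ M₂ 0),
          rt1 (fun j => c₁ (κ₁ j)) (fun j => c₂ (κ₂ j)) c₁ f) :
          Str τ (Fin N) × (Fin N → Option V)) ∈ tp N M' g₁ →
        ((sub D f (blb (fun j => c₁ (κ₁ j)) (fun j => c₂ (κ₂ j)) M₁ M₂ 1), rt2 c₂ Y f) :
          Str τ (Fin N) × (Fin N → Option X)) ∈ tp N M' g₂ →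
        ∃ h : Fin N → W', IsHom D M' h ∧
          (∀ v x, f v = lft (fun j => c₁ (κ₁ j)) (fun j => c₂ (κ₂ j)) (c₁ x) → h v = g₁ x) ∧
          ∀ v, ∀ y ∈ Y, f v = Sum.inr (c₂ y) → h v = g₂ y := by
  set a : J → W₁ := fun j => c₁ (κ₁ j) with ha
  set b : J → W₂ := fun j => c₂ (κ₂ j) with hb
  have hai : Function.Injective a := hc₁.comp hκ₁
  have hbi : Function.Injective b := hc₂.comp hκ₂
  set K : Set (W₁ ⊕ W₂) := {w | (∃ x, w = lft a b (c₁ x)) ∨ ∃ y ∈ Y, w = Sum.inr (c₂ y)} with hK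
  have hint : ∀ i j x, x ∈ bls a b i → x ∈ bls a b j → i ≠ j → x ∈ K := by
    intro i j x hi hj hij
    obtain ⟨m, rfl⟩ := bls_int hai i j x hi hj hij
    exact Or.inr ⟨κ₂ m, hY m, rfl⟩
  -- the vertices of `K` in the two blobs
  have hK0 : ∀ v, f v ∈ K → f v ∈ bls a b 0 → ∃ x, f v = lft a b (c₁ x) := by
    intro v h1 h2
    rcases h1 with h1 | ⟨y, hy, h1⟩
    · exact h1
    · obtain ⟨w, hw⟩ := h2
      rw [h1] at hw
      obtain ⟨j, hj1, hj2⟩ := lft_inr hai hw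
      refine ⟨κ₁ j, ?_⟩
      rw [h1, ← hw, hj1]
  have hK1 : ∀ v, f v ∈ K → f v ∈ bls a b 1 → ∃ y ∈ Y, f v = Sum.inr (c₂ y) := by
    intro v h1 h2
    rcases h1 with ⟨x, h1⟩ | h1
    · obtain ⟨w, hw⟩ := h2
      rw [h1] at hw
      obtain ⟨j, hj1, hj2⟩ := lft_inr hai hw.symm
      exact ⟨κ₂ j, hY j, by rw [h1, ← hw, hj2]⟩
    · exact h1
  have hRC0 : RC (sub D f (blb a b M₁ M₂ 0)) (rt1 a b c₁ f) := by
    refine hGL2 τ N (W₁ ⊕ W₂) (Fin 2) R V (blb a b M₁ M₂) (bls a b) K (amg a b M₁ M₂) D f ρ har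
      hint (blb_cov a b M₁ M₂) (blb_in a b M₁ M₂) hf hRC hρ 0 (rt1 a b c₁ f) ?_
    intro v h1 h2
    obtain ⟨x, hx⟩ := hK0 v h1 h2
    rw [(rt1_iff hai hbi hc₁ v x).2 hx]
    exact Option.some_ne_none x
  have hRC1 : RC (sub D f (blb a b M₁ M₂ 1)) (rt2 c₂ Y f) := by
    refine hGL2 τ N (W₁ ⊕ W₂) (Fin 2) R X (blb a b M₁ M₂) (bls a b) K (amg a b M₁ M₂) D f ρ har
      hint (blb_cov a b M₁ M₂) (blb_in a b M₁ M₂) hf hRC hρ 1 (rt2 c₂ Y f) ?_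
    intro v h1 h2
    obtain ⟨y, hy, hx⟩ := hK1 v h1 h2
    rw [(rt2_iff hc₂ v y).2 ⟨hy, hx⟩]
    exact Option.some_ne_none y
  refine ⟨⟨hRC0, ?_⟩, ⟨hRC1, ?_⟩, ?_⟩
  · -- the left part
    refine ⟨fun v => if h : ∃ w, f v = lft a b w then h.choose else hW₁.some, ?_, ?_⟩
    · rintro l z ⟨-, z₁, hz, hzf⟩
      have : (fun i => if h : ∃ w, f (z i) = lft a b w then h.choose else hW₁.some) = z₁ := by
        funext i
        have h1 : f (z i) = lft a b (z₁ i) := congrFun hzf i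
        have h2 : ∃ w, f (z i) = lft a b w := ⟨z₁ i, h1⟩
        rw [dif_pos h2]
        exact (lft_inj hai hbi (h1.symm.trans h2.choose_spec)).symm
      simp only [this]
      exact hz
    · intro v x hx
      have h1 := (rt1_iff hai hbi hc₁ v x).1 hx
      have h2 : ∃ w, f v = lft a b w := ⟨_, h1⟩
      simp only
      rw [dif_pos h2]
      exact (lft_inj hai hbi (h1.symm.trans h2.choose_spec)).symm
  · -- the right part
    refine ⟨fun v => if h : ∃ w, f v = Sum.inr w then h.choose else hW₂.some, ?_, ?_⟩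
    · rintro l z ⟨-, z₁, hz, hzf⟩
      have : (fun i => if h : ∃ w, f (z i) = Sum.inr w then h.choose else hW₂.some) = z₁ := by
        funext i
        have h1 : f (z i) = Sum.inr (z₁ i) := congrFun hzf i
        have h2 : ∃ w, f (z i) = (Sum.inr w : W₁ ⊕ W₂) := ⟨z₁ i, h1⟩
        rw [dif_pos h2]
        exact (Sum.inr.inj (h1.symm.trans h2.choose_spec)).symm
      simp only [this]
      exact hz
    · intro v y hy
      have h1 := ((rt2_iff hc₂ v y).1 hy).2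
      have h2 : ∃ w, f v = (Sum.inr w : W₁ ⊕ W₂) := ⟨_, h1⟩
      simp only
      rw [dif_pos h2]
      exact (Sum.inr.inj (h1.symm.trans h2.choose_spec)).symm
  · intro W' M' g₁ g₂ hg h₁ h₂
    obtain ⟨-, f₁, hf₁, hr₁⟩ := h₁
    obtain ⟨-, f₂, hf₂, hr₂⟩ := h₂
    by_cases hW' : Nonempty W'
    swap
    · refine ⟨f₁, ?_, fun v => absurd ⟨f₁ v⟩ hW', fun v => absurd ⟨f₁ v⟩ hW'⟩
      intro l z hz
      exact absurd ⟨f₁ (z ⟨0, har l⟩)⟩ hW'
    -- the map on `K`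
    let φ : W₁ ⊕ W₂ → W' := fun w =>
      if h : ∃ x, w = lft a b (c₁ x) then g₁ h.choose else
        if h : ∃ y, y ∈ Y ∧ w = Sum.inr (c₂ y) then g₂ h.choose else hW'.some
    have hφ₁ : ∀ x, φ (lft a b (c₁ x)) = g₁ x := by
      intro x
      have h : ∃ x', lft a b (c₁ x) = lft a b (c₁ x') := ⟨x, rfl⟩
      change (if h : ∃ x', lft a b (c₁ x) = lft a b (c₁ x') then g₁ h.choose else _) = _
      rw [dif_pos h, ← hc₁ (lft_inj hai hbi h.choose_spec)]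
    have hφ₂ : ∀ y ∈ Y, φ (Sum.inr (c₂ y)) = g₂ y := by
      intro y hy
      by_cases h : ∃ x', (Sum.inr (c₂ y) : W₁ ⊕ W₂) = lft a b (c₁ x')
      · obtain ⟨x', hx'⟩ := h
        rw [hx', hφ₁ x']
        obtain ⟨j, hj1, hj2⟩ := lft_inr hai hx'.symm
        rw [hc₁ hj1, hc₂ hj2, hg j]
      · change (if h : ∃ x', (Sum.inr (c₂ y) : W₁ ⊕ W₂) = lft a b (c₁ x') then g₁ h.choose else
          if h : ∃ y', y' ∈ Y ∧ (Sum.inr (c₂ y) : W₁ ⊕ W₂) = Sum.inr (c₂ y') then g₂ h.choose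
          else _) = _
        have h' : ∃ y', y' ∈ Y ∧ (Sum.inr (c₂ y) : W₁ ⊕ W₂) = Sum.inr (c₂ y') := ⟨y, hy, rfl⟩
        rw [dif_neg h, dif_pos h', ← hc₂ (Sum.inr.inj h'.choose_spec.2)]
    obtain ⟨h, hh1, hh2⟩ := hGLU τ N (W₁ ⊕ W₂) W' (Fin 2) (blb a b M₁ M₂) (bls a b) K
      (amg a b M₁ M₂) M' φ D f hint (blb_cov a b M₁ M₂) (blb_in a b M₁ M₂) hf (by
        intro i
        fin_cases i
        · refine ⟨f₁, hf₁, fun v h1 h2 => ?_⟩
          obtain ⟨x, hx⟩ := hK0 v h1 h2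
          rw [hr₁ v x ((rt1_iff hai hbi hc₁ v x).2 hx), hx, hφ₁]
        · refine ⟨f₂, hf₂, fun v h1 h2 => ?_⟩
          obtain ⟨y, hy, hx⟩ := hK1 v h1 h2
          rw [hr₂ v y ((rt2_iff hc₂ v y).2 ⟨hy, hx⟩), hx, hφ₂ y hy])
    refine ⟨h, hh1, fun v x hx => ?_, fun v y hy hx => ?_⟩
    · rw [hh2 v (Or.inl ⟨x, hx⟩), hx, hφ₁]
    · rw [hh2 v (Or.inr ⟨y, hy, hx⟩), hx, hφ₂ y hy]


end

end Pool.Agent.H44.GX
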